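import Pool.Agent.Q74.BH.Stm

/-! # Project BH (helper74): jobs Cls and Few -/

set_option autoImplicit false

namespace Pool.Agent.Q208.BH

open Finset
open Pool.Agent.Q74.BH
open Pool.Agent.TH930.EBQ (ones words cw cw_append ones_append cw_cons_false ones_cons_true
  ones_cons_false sum_words_succ)

theorem i2_two (μ : ℕ) : i2 μ * 2 = 3 ^ μ + 1 := by
  unfold i2
  have h : (2 : ℤ) ∣ 3 ^ μ + 1 := by
    have h1 : Odd ((3 : ℤ) ^ μ) := Odd.pow (by decide)
    obtain ⟨k, hk⟩ := h1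
    rw [hk]
    exact ⟨k + 1, by ring⟩
  exact Int.ediv_mul_cancel h

theorem i2_two_modEq (μ : ℕ) : i2 μ * 2 ≡ 1 [ZMOD 3 ^ μ] := by
  rw [i2_two]
  have : (3 : ℤ) ^ μ + 1 ≡ 0 + 1 [ZMOD 3 ^ μ] :=
    Int.ModEq.add_right 1 (Int.modEq_zero_iff_dvd.mpr dvd_rfl)
  simpa using this

theorem i2_pow_modEq (μ n : ℕ) : i2 μ ^ n * 2 ^ n ≡ 1 [ZMOD 3 ^ μ] := by
  rw [← mul_pow]
  simpa using (i2_two_modEq μ).pow n

theorem cls : S_Cls := by
  refine ⟨?_, ?_, ?_, ?_⟩
  · intro μ v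
    exact ⟨Int.emod_nonneg _ (by positivity), Int.emod_lt_of_pos _ (by positivity)⟩
  · intro μ v z
    constructor
    · intro h
      have h1 : (cw v : ℤ) ≡ 2 ^ v.length * z [ZMOD 3 ^ μ] := (Int.modEq_iff_dvd).mpr h
      have h2 := (h1.mul_right (i2 μ ^ v.length)).symm
      have h3 : (2 : ℤ) ^ v.length * z * i2 μ ^ v.length ≡ z [ZMOD 3 ^ μ] := by
        have := (i2_pow_modEq μ v.length).mul_right z
        rw [one_mul] at this
        rw [show (2 : ℤ) ^ v.length * z * i2 μ ^ v.length = i2 μ ^ v.length * 2 ^ v.length * z by ring]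
        exact this
      exact h3.symm.trans h2
    · intro h
      have h1 : z ≡ (cw v : ℤ) * i2 μ ^ v.length [ZMOD 3 ^ μ] := h
      have h2 := h1.mul_left ((2 : ℤ) ^ v.length)
      have h3 : (2 : ℤ) ^ v.length * ((cw v : ℤ) * i2 μ ^ v.length) ≡ cw v [ZMOD 3 ^ μ] := by
        have := (i2_pow_modEq μ v.length).mul_right (cw v : ℤ)
        rw [one_mul] at this
        rw [show (2 : ℤ) ^ v.length * ((cw v : ℤ) * i2 μ ^ v.length) =
          i2 μ ^ v.length * 2 ^ v.length * (cw v : ℤ) by ring]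
        exact this
      exact (Int.modEq_iff_dvd).mp (h2.trans h3).symm
  · intro μ u v hv
    show ((cw (u ++ v) : ℕ) : ℤ) * i2 μ ^ (u ++ v).length ≡ (cw v : ℤ) * i2 μ ^ v.length [ZMOD 3 ^ μ]
    rw [cw_append, List.length_append]
    push_cast
    have h0 : (3 : ℤ) ^ ones v ≡ 0 [ZMOD 3 ^ μ] := Int.modEq_zero_iff_dvd.mpr (pow_dvd_pow 3 hv)
    have h1 : (3 : ℤ) ^ ones v * (cw u : ℤ) * i2 μ ^ (u.length + v.length) ≡ 0 [ZMOD 3 ^ μ] := by
      have := h0.mul_right ((cw u : ℤ) * i2 μ ^ (u.length + v.length))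
      rw [zero_mul] at this
      rw [mul_assoc]
      exact this
    have h2 : (2 : ℤ) ^ u.length * (cw v : ℤ) * i2 μ ^ (u.length + v.length) ≡
        (cw v : ℤ) * i2 μ ^ v.length [ZMOD 3 ^ μ] := by
      have := (i2_pow_modEq μ u.length).mul_right ((cw v : ℤ) * i2 μ ^ v.length)
      rw [one_mul] at this
      rw [show (2 : ℤ) ^ u.length * (cw v : ℤ) * i2 μ ^ (u.length + v.length) =
        i2 μ ^ u.length * 2 ^ u.length * ((cw v : ℤ) * i2 μ ^ v.length) by rw [pow_add]; ring]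
      exact this
    have h3 := h1.add h2
    rw [zero_add] at h3
    rw [add_mul]
    exact h3
  · intro μ v
    show ((cw (false :: v) : ℕ) : ℤ) * i2 μ ^ (false :: v).length ≡
      (cw v : ℤ) * i2 μ ^ v.length [ZMOD 3 ^ μ]
    rw [cw_cons_false, List.length_cons]
    push_cast
    have := (i2_two_modEq μ).mul_right ((cw v : ℤ) * i2 μ ^ v.length)
    rw [one_mul] at this
    rw [show (2 : ℤ) * (cw v : ℤ) * i2 μ ^ (v.length + 1) =
      i2 μ * 2 * ((cw v : ℤ) * i2 μ ^ v.length) by ring]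
    exact this

theorem sum_pow_ones (x : ℝ) (n : ℕ) : ∑ v ∈ words n, x ^ ones v = (1 + x) ^ n := by
  induction n with
  | zero => simp [words]
  | succ n ih =>
    rw [sum_words_succ, pow_succ, ← ih, sum_mul]
    apply sum_congr rfl
    intro v _
    rw [ones_cons_true, ones_cons_false]
    ring

theorem few : S_Few := by
  intro t ht
  obtain ⟨n, rfl⟩ : ∃ n, t = n + 1 := ⟨t - 1, by omega⟩
  unfold OW
  rw [Nat.add_sub_cancel]
  set s : ℝ := Real.exp (Real.log 3 / 4) with hs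
  have hs0 : 0 < s := Real.exp_pos _
  have hs1 : 1 ≤ s := by
    rw [hs]
    apply Real.one_le_exp
    have := Real.log_nonneg (by norm_num : (1 : ℝ) ≤ 3)
    linarith
  have hs4 : s ^ 4 = 3 := by
    rw [hs, ← Real.exp_nat_mul]
    rw [show ((4 : ℕ) : ℝ) * (Real.log 3 / 4) = Real.log 3 by push_cast; ring]
    exact Real.exp_log (by norm_num)
  -- pointwise
  have hpt : ∀ v : List Bool, (if 4 * ones (true :: v) < n + 1 then (1 : ℝ) else 0) ≤
      s ^ (n + 1) * (1 / 3) * (1 / 3) ^ ones v := by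
    intro v
    rw [ones_cons_true]
    split_ifs with h
    · have h1 : s ^ (4 * (ones v + 1)) ≤ s ^ (n + 1) := pow_le_pow_right₀ hs1 h.le
      rw [pow_mul, hs4] at h1
      have h2 : (3 : ℝ) ^ (ones v + 1) * (1 / 3 * (1 / 3) ^ ones v) = 1 := by
        rw [pow_succ]
        have : (3 : ℝ) ^ ones v * (1 / 3) ^ ones v = 1 := by
          rw [← mul_pow]
          norm_num
        calc (3 : ℝ) ^ ones v * 3 * (1 / 3 * (1 / 3) ^ ones v) =
            (3 : ℝ) ^ ones v * (1 / 3) ^ ones v := by ring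
          _ = 1 := this
      calc (1 : ℝ) = (3 : ℝ) ^ (ones v + 1) * (1 / 3 * (1 / 3) ^ ones v) := h2.symm
        _ ≤ s ^ (n + 1) * (1 / 3 * (1 / 3) ^ ones v) :=
            mul_le_mul_of_nonneg_right h1 (by positivity)
        _ = _ := by ring
    · positivity
  have hsum : ∑ v ∈ words n, (if 4 * ones (true :: v) < n + 1 then (1 : ℝ) else 0) ≤
      s ^ (n + 1) * (1 / 3) * (4 / 3) ^ n := by
    calc ∑ v ∈ words n, (if 4 * ones (true :: v) < n + 1 then (1 : ℝ) else 0)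
        ≤ ∑ v ∈ words n, s ^ (n + 1) * (1 / 3) * (1 / 3) ^ ones v := sum_le_sum (fun v _ => hpt v)
      _ = s ^ (n + 1) * (1 / 3) * (1 + 1 / 3) ^ n := by rw [← mul_sum, sum_pow_ones]
      _ = _ := by norm_num
  set e : ℝ := Real.exp (1 / 16) with he
  have he0 : 0 < e := Real.exp_pos _
  have hse : s * e ≤ 3 / 2 := by
    have h4 : (s * e) ^ 4 ≤ (3 / 2) ^ 4 := by
      rw [mul_pow, hs4, he, ← Real.exp_nat_mul]
      have h1 : Real.exp (((4 : ℕ) : ℝ) * (1 / 16)) ≤ 27 / 16 := by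
        have h2 : Real.exp (((4 : ℕ) : ℝ) * (1 / 16)) ^ 4 ≤ (27 / 16) ^ 4 := by
          rw [← Real.exp_nat_mul]
          rw [show ((4 : ℕ) : ℝ) * (((4 : ℕ) : ℝ) * (1 / 16)) = 1 by norm_num]
          have := Real.exp_one_lt_d9
          norm_num
          linarith
        exact le_of_pow_le_pow_left₀ (by norm_num) (by norm_num) h2
      calc 3 * Real.exp (((4 : ℕ) : ℝ) * (1 / 16)) ≤ 3 * (27 / 16) := by linarith
        _ = (3 / 2) ^ 4 := by norm_num
    exact le_of_pow_le_pow_left₀ (by norm_num) (by norm_num) h4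
  have hexp : Real.exp (-(((n + 1 : ℕ) : ℝ) / 16)) * e ^ (n + 1) = 1 := by
    rw [he, ← Real.exp_nat_mul, ← Real.exp_add]
    rw [show -(((n + 1 : ℕ) : ℝ) / 16) + ((n + 1 : ℕ) : ℝ) * (1 / 16) = 0 by ring]
    exact Real.exp_zero
  rw [div_le_iff₀ (by positivity)]
  refine hsum.trans ?_
  have h2 : (s * e) ^ (n + 1) ≤ (3 / 2) ^ (n + 1) := pow_le_pow_left₀ (by positivity) hse _
  have h3 : s ^ (n + 1) ≤ Real.exp (-(((n + 1 : ℕ) : ℝ) / 16)) * (3 / 2) ^ (n + 1) := by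
    calc s ^ (n + 1) = Real.exp (-(((n + 1 : ℕ) : ℝ) / 16)) * (s * e) ^ (n + 1) := by
          rw [mul_pow]
          calc s ^ (n + 1) = s ^ (n + 1) * 1 := (mul_one _).symm
            _ = s ^ (n + 1) * (Real.exp (-(((n + 1 : ℕ) : ℝ) / 16)) * e ^ (n + 1)) := by rw [hexp]
            _ = _ := by ring
      _ ≤ _ := mul_le_mul_of_nonneg_left h2 (Real.exp_pos _).le
  calc s ^ (n + 1) * (1 / 3) * (4 / 3) ^ n
      ≤ Real.exp (-(((n + 1 : ℕ) : ℝ) / 16)) * (3 / 2) ^ (n + 1) * (1 / 3) * (4 / 3) ^ n := by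
        gcongr
    _ = Real.exp (-(((n + 1 : ℕ) : ℝ) / 16)) * (1 / 2) * ((3 / 2) ^ n * (4 / 3) ^ n) := by
        rw [pow_succ (3 / 2 : ℝ)]
        ring
    _ = Real.exp (-(((n + 1 : ℕ) : ℝ) / 16)) * (1 / 2) * 2 ^ n := by
        rw [← mul_pow]
        norm_num
    _ ≤ 2 * Real.exp (-(((n + 1 : ℕ) : ℝ) / 16)) * 2 ^ n := by
        have h5 : 0 < Real.exp (-(((n + 1 : ℕ) : ℝ) / 16)) * 2 ^ n := by positivity
        nlinarith

end Pool.Agent.Q208.BH
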